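import Mathlib
import Pool.Agent.Helper92.ABC.Defs
import Pool.Agent.Helper26.Abc2.Rad
import Pool.Agent.Helper4.ABC.Sizes

set_option autoImplicit false

/-!
# The number of integers with small radical, and the trivial tool for boxes of abc-triples
-/

namespace Pool.Agent.Helper92.ABC

open Finset

lemma radn_pos (n : ℕ) : 1 ≤ radn n := by
  unfold radn
  exact Nat.one_le_iff_ne_zero.2 (Finset.prod_ne_zero_iff.2
    fun p hp => (Nat.prime_of_mem_primeFactors hp).ne_zero)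

theorem card_radn_le (ε : ℝ) (hε : 0 < ε) : ∃ C : ℝ, 0 < C ∧ ∀ X R : ℕ,
    (((Finset.Icc 1 X).filter (fun d => radn d ≤ R)).card : ℝ) ≤ C * (X : ℝ) ^ ε * R := by
  classical
  obtain ⟨C, hC, h⟩ := Pool.Agent.Helper26.Abc2.card_rad_eq hε
  refine ⟨C, hC, fun X R => ?_⟩
  have hsub : (Finset.Icc 1 X).filter (fun d => radn d ≤ R) ⊆
      (Finset.Icc 1 R).biUnion (fun r =>
        (Finset.Icc 1 X).filter (fun d => ∏ p ∈ d.primeFactors, p = r)) := by
    intro d hd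
    rw [Finset.mem_filter] at hd
    rw [Finset.mem_biUnion]
    exact ⟨radn d, Finset.mem_Icc.2 ⟨radn_pos d, hd.2⟩, Finset.mem_filter.2 ⟨hd.1, rfl⟩⟩
  calc (((Finset.Icc 1 X).filter (fun d => radn d ≤ R)).card : ℝ)
      ≤ (((Finset.Icc 1 R).biUnion (fun r =>
        (Finset.Icc 1 X).filter (fun d => ∏ p ∈ d.primeFactors, p = r))).card : ℝ) := by
        exact_mod_cast Finset.card_le_card hsub
    _ ≤ ((∑ r ∈ Finset.Icc 1 R,
        ((Finset.Icc 1 X).filter (fun d => ∏ p ∈ d.primeFactors, p = r)).card : ℕ) : ℝ) := by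
        exact_mod_cast Finset.card_biUnion_le
    _ = ∑ r ∈ Finset.Icc 1 R,
        (((Finset.Icc 1 X).filter (fun d => ∏ p ∈ d.primeFactors, p = r)).card : ℝ) := by
        push_cast; rfl
    _ ≤ ∑ _r ∈ Finset.Icc 1 R, C * (X : ℝ) ^ ε := Finset.sum_le_sum fun r _ => h X r
    _ = C * (X : ℝ) ^ ε * R := by
        rw [Finset.sum_const, Nat.card_Icc, nsmul_eq_mul]
        push_cast
        ring

lemma num_pos {t : ℕ × ℕ} (h1 : 1 ≤ t.1) (h2 : 1 ≤ t.2) (n : Fin 3) : 1 ≤ num t n := by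
  fin_cases n <;> simp [num] <;> omega

lemma num_le {t : ℕ × ℕ} {M : ℕ} (h : t.1 + t.2 ≤ M) (n : Fin 3) : num t n ≤ M := by
  fin_cases n <;> simp [num] <;> omega

lemma num_inj {s t : ℕ × ℕ} {p q : Fin 3} (hpq : p ≠ q) (hp : num s p = num t p)
    (hq : num s q = num t q) : s = t := by
  obtain ⟨a, b⟩ := s
  obtain ⟨c, d⟩ := t
  fin_cases p <;> fin_cases q <;> simp [num] at hp hq hpq ⊢ <;> omega

theorem tool_triv (ε : ℝ) (hε : 0 < ε) : ∃ C : ℝ, 0 < C ∧ ∀ (Z Q : ℕ) (k : Fin 3 → ℕ → ℕ)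
    (p q : Fin 3), 2 ≤ Z → p ≠ q →
    ((Box Z Q k).card : ℝ) ≤ C * ((Z : ℝ) ^ Q) ^ ε * (Z : ℝ) ^ (wt full (k p) + wt full (k q)) := by
  classical
  obtain ⟨C, hC, h⟩ := card_radn_le (ε / 2) (by positivity)
  refine ⟨C * C, by positivity, fun Z Q k p q hZ hpq => ?_⟩
  set A : Fin 3 → Finset ℕ := fun n =>
    (Finset.Icc 1 (Z ^ Q)).filter (fun d => radn d ≤ Z ^ wt full (k n)) with hA
  have hmem : ∀ n : Fin 3, ∀ t ∈ Box Z Q k, num t n ∈ A n := by
    intro n t ht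
    simp only [Box, Finset.mem_filter, Finset.mem_product, Finset.mem_Icc] at ht
    obtain ⟨⟨⟨h1, _⟩, ⟨h2, _⟩⟩, _, h3, h4⟩ := ht
    have hn := num_pos h1 h2 n
    rw [hA, Finset.mem_filter, Finset.mem_Icc]
    refine ⟨⟨hn, num_le h3 n⟩, ?_⟩
    have h5 : radn (num t n) = rpart full (num t n) := by
      unfold radn rpart
      rw [prs_full]
    have h6 : wt full (k n) = wt full (fun i => Nat.log Z (coord (num t n) i)) := by
      unfold wt
      refine Finset.sum_congr rfl fun i hi => ?_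
      show k n i + 1 = Nat.log Z (coord (num t n) i) + 1
      rw [h4 n i (by
        simp only [full, Finset.mem_Icc] at hi
        omega)]
    rw [h5, h6]
    exact rpart_upper Z hZ full (Finset.Subset.refl _) (num t n) (by omega)
  have hcard : (Box Z Q k).card ≤ (A p).card * (A q).card := by
    rw [← Finset.card_product]
    refine Finset.card_le_card_of_injOn (fun t => (num t p, num t q)) ?_ ?_
    · intro t ht
      exact Finset.mem_coe.2 (Finset.mem_product.2 ⟨hmem p t ht, hmem q t ht⟩)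
    · intro s _ t _ hst
      have := Prod.mk.injEq _ _ _ _ ▸ hst
      exact num_inj hpq this.1 this.2
  have hb : ∀ n : Fin 3, ((A n).card : ℝ) ≤
      C * ((Z : ℝ) ^ Q) ^ (ε / 2) * (Z : ℝ) ^ wt full (k n) := by
    intro n
    have := h (Z ^ Q) (Z ^ wt full (k n))
    push_cast at this
    exact this
  have hZ0 : (0 : ℝ) < (Z : ℝ) ^ Q := by
    have : (0 : ℝ) < (Z : ℝ) := by exact_mod_cast (by omega : 0 < Z)
    positivity
  have hsplit : ((Z : ℝ) ^ Q) ^ ε = ((Z : ℝ) ^ Q) ^ (ε / 2) * ((Z : ℝ) ^ Q) ^ (ε / 2) := by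
    rw [← Real.rpow_add hZ0, add_halves]
  calc ((Box Z Q k).card : ℝ) ≤ ((A p).card : ℝ) * ((A q).card : ℝ) := by exact_mod_cast hcard
    _ ≤ (C * ((Z : ℝ) ^ Q) ^ (ε / 2) * (Z : ℝ) ^ wt full (k p)) *
        (C * ((Z : ℝ) ^ Q) ^ (ε / 2) * (Z : ℝ) ^ wt full (k q)) :=
        mul_le_mul (hb p) (hb q) (by positivity) (by positivity)
    _ = C * C * ((Z : ℝ) ^ Q) ^ ε * (Z : ℝ) ^ (wt full (k p) + wt full (k q)) := by
        rw [hsplit, pow_add]
        ring

end Pool.Agent.Helper92.ABC
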